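import Pool.Agent.W46.HM.Stm

/-! # Project HM: the general oracle from the two-ends oracle -/

set_option autoImplicit false
set_option linter.unusedSectionVars false
set_option linter.unusedVariables false

open Finset
open scoped Classical

namespace Pool.Agent.W369.HM
open Pool.Agent.W904.AK Pool.Agent.W46.HD Pool.Agent.W46.HM

/-- the law of the height, given the line -/
noncomputable def mu {Ω : Type} [Fintype Ω] {n : ℕ} (p : Ω × Fin n → ℝ) (w : Ω) (s : Fin n) : ℝ :=
  p (w, s) / ∑ z, p (w, z)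

section Lev

variable {Ω : Type} [Fintype Ω] {n : ℕ} {p : Ω × Fin n → ℝ}

theorem im_fst (p : Ω × Fin n → ℝ) (w : Ω) : im p Prod.fst w = ∑ z, p (w, z) := by
  rw [im_eq_sum, Fintype.sum_prod_type]
  rw [Finset.sum_eq_single w]
  · simp
  · intro y _ hy
    simp [hy]
  · simp

theorem mu_law (hp : IsLaw p) {w : Ω} (hw : ∑ z, p (w, z) ≠ 0) : IsLaw (mu p w) := by
  constructor
  · intro s
    exact div_nonneg (hp.nonneg _) (Finset.sum_nonneg fun _ _ => hp.nonneg _)
  · unfold mu
    rw [← Finset.sum_div, div_self hw]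

theorem im_cd_snd (w : Ω) : im (cd p Prod.fst w) Prod.snd = mu p w := by
  funext s
  rw [im_eq_sum, Fintype.sum_prod_type, Finset.sum_eq_single w]
  · rw [Finset.sum_eq_single s]
    · simp [cd, mu, im_fst]
    · intro y _ hy
      simp [hy]
    · simp
  · intro y _ hy
    refine Finset.sum_eq_zero fun z _ => ?_
    simp [cd, hy]
  · simp

theorem H_cd (hp : IsLaw p) (lev : Ω → Fin n → ℕ) {w : Ω} (hw : im p Prod.fst w ≠ 0) :
    H (cd p Prod.fst w) (fun z => lb (lev z.1) z.2) = H (mu p w) (lb (lev w)) := by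
  rw [← H_map (im_cd_snd w) (lb (lev w))]
  have hl := cd_law hp (Prod.fst) hw
  have hs : ∀ z : Ω × Fin n, cd p Prod.fst w z ≠ 0 → z.1 = w := by
    intro z hz
    by_contra h
    exact hz (by simp [cd, h])
  refine H_congr hl ?_ ?_
  · intro x y hx hy h
    dsimp only at h ⊢
    rw [hs x hx, hs y hy] at h
    exact h
  · intro x y hx hy h
    dsimp only at h ⊢
    rw [hs x hx, hs y hy]
    exact h

theorem loss_le {μ : Fin n → ℝ} (hμ : IsLaw μ) {lev : Fin n → ℕ} (hlev : ∀ s, 2 ^ lev s < 2 * n) :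
    ∑ x, ∑ y, μ x * μ y * max 0 (Real.log (|((x : ℕ) : ℝ) - (y : ℕ)| / 2 ^ lev y)) ≤
      ∑ y, μ y * Real.log (2 * n / 2 ^ lev y) := by
  have h1 : ∀ x y : Fin n, max 0 (Real.log (|((x : ℕ) : ℝ) - (y : ℕ)| / 2 ^ lev y)) ≤
      Real.log (2 * n / 2 ^ lev y) := by
    intro x y
    have hy : ((2 : ℝ) ^ lev y) < 2 * n := by exact_mod_cast hlev y
    have h2 : (0 : ℝ) < 2 ^ lev y := by positivity
    have h0 : 0 ≤ Real.log (2 * n / 2 ^ lev y) := by
      apply Real.log_nonneg
      rw [le_div_iff₀ h2]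
      linarith
    refine max_le h0 ?_
    by_cases hxy : |((x : ℕ) : ℝ) - (y : ℕ)| = 0
    · rw [hxy]
      simpa using h0
    have hpos : 0 < |((x : ℕ) : ℝ) - (y : ℕ)| := lt_of_le_of_ne (abs_nonneg _) (Ne.symm hxy)
    refine Real.log_le_log (div_pos hpos h2) ?_
    refine div_le_div_of_nonneg_right ?_ h2.le
    have hx1 : ((x : ℕ) : ℝ) < n := by exact_mod_cast x.2
    have hy1 : ((y : ℕ) : ℝ) < n := by exact_mod_cast y.2
    have hx0 : (0 : ℝ) ≤ ((x : ℕ) : ℝ) := Nat.cast_nonneg _
    have hy0 : (0 : ℝ) ≤ ((y : ℕ) : ℝ) := Nat.cast_nonneg _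
    rw [abs_le]
    constructor <;> linarith
  calc ∑ x, ∑ y, μ x * μ y * max 0 (Real.log (|((x : ℕ) : ℝ) - (y : ℕ)| / 2 ^ lev y))
      ≤ ∑ x, ∑ y, μ x * μ y * Real.log (2 * n / 2 ^ lev y) := by
        refine Finset.sum_le_sum fun x _ => Finset.sum_le_sum fun y _ => ?_
        exact mul_le_mul_of_nonneg_left (h1 x y) (mul_nonneg (hμ.nonneg x) (hμ.nonneg y))
    _ = ∑ x, μ x * ∑ y, μ y * Real.log (2 * n / 2 ^ lev y) := by
        refine Finset.sum_congr rfl fun x _ => ?_
        rw [Finset.mul_sum]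
        exact Finset.sum_congr rfl fun y _ => by ring
    _ = _ := by rw [← Finset.sum_mul, hμ.total, one_mul]

end Lev

/-- The levels: two-ends condition and entropy of the label given the line. -/
theorem exists_lev (hTE : S_TE) {ε : ℝ} (h0 : 0 < ε) (h1 : ε < 1) : ∃ B : ℝ, 0 ≤ B ∧
    ∀ (n : ℕ) (Ω : Type) [Fintype Ω], 1 ≤ n → ∀ p : Ω × Fin n → ℝ, IsLaw p →
    ∃ lev : Ω → Fin n → ℕ, (∀ w s, 2 ^ lev w s < 2 * n) ∧
      (∀ (ω : Ω) (s x : Fin n),
        ∑ z, (if lb (lev ω) z = lb (lev ω) s then p (ω, z) * max 0 (psi (2 ^ lev ω s) z x) else 0) ≤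
          B * ∑ z, (if lb (lev ω) z = lb (lev ω) s then p (ω, z) else 0)) ∧
      H p (fun z => (z.1, lb (lev z.1) z.2)) - H p Prod.fst ≤
        B + ε * ∑ z, p z * Real.log (2 * n / 2 ^ lev z.1 z.2) := by
  obtain ⟨B, hB, hTE⟩ := hTE ε h0 h1
  refine ⟨B, hB, ?_⟩
  intro n Ω _ hn p hp
  have key : ∀ w : Ω, ∃ lv : Fin n → ℕ, (∀ s, 2 ^ lv s < 2 * n) ∧
      (∀ (s x : Fin n),
        ∑ z, (if lb lv z = lb lv s then p (w, z) * max 0 (psi (2 ^ lv s) z x) else 0) ≤
          B * ∑ z, (if lb lv z = lb lv s then p (w, z) else 0)) ∧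
      (∑ z, p (w, z) ≠ 0 → H (mu p w) (lb lv) ≤
        B + ε * ∑ y, mu p w y * Real.log (2 * n / 2 ^ lv y)) := by
    intro w
    by_cases hw : ∑ z, p (w, z) = 0
    · have hz : ∀ z, p (w, z) = 0 := by
        intro z
        exact (Finset.sum_eq_zero_iff_of_nonneg fun _ _ => hp.nonneg _).1 hw z (Finset.mem_univ z)
      refine ⟨fun _ => 0, ?_, ?_, fun h => absurd hw h⟩
      · intro s
        simp only [pow_zero]
        omega
      · intro s x
        simp [hz]
    · obtain ⟨lv, g1, g2, g3⟩ := hTE n hn (mu p w) (mu_law hp hw)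
      refine ⟨lv, g1, ?_, ?_⟩
      · intro s x
        have hP : 0 < ∑ z, p (w, z) :=
          lt_of_le_of_ne (Finset.sum_nonneg fun _ _ => hp.nonneg _) (Ne.symm hw)
        have hmu : ∀ z, p (w, z) = (∑ z, p (w, z)) * mu p w z := by
          intro z
          unfold mu
          field_simp
        have e1 : ∑ z, (if lb lv z = lb lv s then p (w, z) * max 0 (psi (2 ^ lv s) z x) else 0) =
            (∑ z, p (w, z)) *
              ∑ z, (if lb lv z = lb lv s then mu p w z * max 0 (psi (2 ^ lv s) z x) else 0) := by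
          conv_rhs => rw [Finset.mul_sum]
          refine Finset.sum_congr rfl fun z _ => ?_
          split_ifs
          · rw [← mul_assoc, ← hmu z]
          · simp
        have e2 : ∑ z, (if lb lv z = lb lv s then p (w, z) else 0) =
            (∑ z, p (w, z)) * ∑ z, (if lb lv z = lb lv s then mu p w z else 0) := by
          conv_rhs => rw [Finset.mul_sum]
          refine Finset.sum_congr rfl fun z _ => ?_
          split_ifs
          · exact hmu z
          · simp
        rw [e1, e2, mul_left_comm]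
        exact mul_le_mul_of_nonneg_left (g2 s x) hP.le
      · intro _
        have h3 := loss_le (mu_law hp hw) g1
        have h4 := mul_le_mul_of_nonneg_left h3 h0.le
        linarith
  choose lev hlev1 hlev2 hlev3 using key
  refine ⟨lev, hlev1, hlev2, ?_⟩
  have hch := chain hp (Prod.fst : Ω × Fin n → Ω) (fun z => lb (lev z.1) z.2)
  have e0 : H p (fun z => (z.1, lb (lev z.1) z.2)) =
      H p (fun x => (Prod.fst x, (fun z : Ω × Fin n => lb (lev z.1) z.2) x)) := rfl
  rw [e0, hch]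
  have h5 : ∀ z : Ω × Fin n, p z * H (cd p Prod.fst z.1) (fun z => lb (lev z.1) z.2) ≤
      p z * (B + ε * ∑ y, mu p z.1 y * Real.log (2 * n / 2 ^ lev z.1 y)) := by
    intro z
    by_cases hz : p z = 0
    · simp [hz]
    have h6 : im p Prod.fst z.1 ≠ 0 := (im_pos hp Prod.fst hz).ne'
    rw [H_cd hp lev h6]
    refine mul_le_mul_of_nonneg_left (hlev3 z.1 ?_) (hp.nonneg z)
    rw [← im_fst]
    exact h6
  refine (Finset.sum_le_sum fun z _ => h5 z).trans (le_of_eq ?_)
  have h7 : ∀ z : Ω × Fin n, p z * (B + ε * ∑ y, mu p z.1 y * Real.log (2 * n / 2 ^ lev z.1 y)) =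
      p z * B + ε * (p z * ∑ y, mu p z.1 y * Real.log (2 * n / 2 ^ lev z.1 y)) := by
    intro z
    ring
  rw [Finset.sum_congr rfl fun z _ => h7 z, Finset.sum_add_distrib, ← Finset.sum_mul, hp.total,
    one_mul, ← Finset.mul_sum]
  congr 2
  rw [Fintype.sum_prod_type, Fintype.sum_prod_type]
  refine Finset.sum_congr rfl fun w _ => ?_
  dsimp only
  rw [← Finset.sum_mul]
  by_cases hw : ∑ z, p (w, z) = 0
  · have hz : ∀ z, p (w, z) = 0 := by
      intro z
      exact (Finset.sum_eq_zero_iff_of_nonneg fun _ _ => hp.nonneg _).1 hw z (Finset.mem_univ z)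
    simp [hz]
  · rw [Finset.mul_sum]
    refine Finset.sum_congr rfl fun y _ => ?_
    unfold mu
    field_simp

section Neg

/-- A family of `n` lines. -/
theorem neg_case {d : ℕ} {b G : ℝ} (hd : d ≠ 0) (hb : b < 0) (hPSI : S_PSI) (hT : AllT d b G) :
    False := by
  obtain ⟨C, hC, hT⟩ := hT
  obtain ⟨n, hn⟩ := exists_nat_gt (Real.exp (C * 5))
  have hn1 : 1 ≤ n := by
    have : (0 : ℝ) < n := (Real.exp_pos _).trans hn
    exact_mod_cast this
  have hn0 : (0 : ℝ) < n := by exact_mod_cast hn1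
  have : Nonempty (Fin n) := ⟨⟨0, hn1⟩⟩
  set D : Fin n → Fin d → ℝ := fun w _ => ((w : ℕ) : ℝ) / n with hD
  have hfam : IsFam n D := by
    refine ⟨hn1, ?_, ?_, ?_⟩
    · intro w i
      exact div_nonneg (Nat.cast_nonneg _) hn0.le
    · intro w i
      simp only [hD]
      rw [div_le_one hn0]
      exact_mod_cast w.2.le
    · intro w w' h
      have h1 := h ⟨0, Nat.pos_of_ne_zero hd⟩
      simp only [hD] at h1
      rw [mul_div_cancel₀ _ hn0.ne', mul_div_cancel₀ _ hn0.ne'] at h1
      simp only [Int.floor_natCast, Nat.cast_inj] at h1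
      exact Fin.ext h1
  set p : Fin n × Fin n → ℝ := unif (Fin n × Fin n) with hp
  have hlaw : IsLaw p := unif_law _
  have h1 := hT n (Fin n) (fun _ _ => 0) D hfam p hlaw
  have h2 := hPSI (Fin n) n p hn1 hlaw
  have hid : H p id = 2 * Real.log n := by
    rw [hp, H_unif _ (Function.injective_id)]
    rw [Fintype.card_prod, Fintype.card_fin]
    push_cast
    rw [Real.log_mul hn0.ne' hn0.ne']
    ring
  have hfst : H p Prod.fst ≤ Real.log n := by
    have := H_le_log_card hlaw (Prod.fst : Fin n × Fin n → Fin n) Finset.univ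
      (fun x _ => Finset.mem_univ _)
    simpa using this
  have hsnd : H p Prod.snd ≤ Real.log n := by
    have := H_le_log_card hlaw (Prod.snd : Fin n × Fin n → Fin n) Finset.univ
      (fun x _ => Finset.mem_univ _)
    simpa using this
  have hsub : H p id ≤ H p Prod.fst + H p Prod.snd := subadd hlaw (fun x y _ _ h => h)
  have haa : aa p = Real.log n := le_antisymm hfst (by unfold aa; linarith)
  have hlam : lam p = 0 := by
    have e : H p Prod.fst = Real.log n := haa
    unfold lam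
    rw [hid, e]
    ring
  have hsep : sep p ≤ 4 := by
    have := h2.2
    rw [hlam] at this
    unfold sep
    linarith
  have hhh : 0 ≤ hh (fun _ _ => 0) D p := by
    unfold hh
    have := H_mono hlaw (f := fun z : Fin n × Fin n => (z.2, cell (fun _ _ => 0) D z.2 z.1))
      (g := Prod.snd) (fun x y _ _ h => congrArg Prod.fst h)
    linarith
  rw [haa, hlam] at h1
  have h3 : Real.log n ≤ C * 5 := by
    have e1 : b * hh (fun _ _ => 0) D p ≤ 0 := mul_nonpos_of_nonpos_of_nonneg hb.le hhh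
    have e2 : C * (1 + sep p) ≤ C * 5 := mul_le_mul_of_nonneg_left (by linarith) hC
    linarith
  have h4 := (Real.log_le_iff_le_exp hn0).1 h3
  linarith

end Neg

section Main

variable {Ω : Type} [Fintype Ω] {d n : ℕ} {p : Ω × Fin n → ℝ}

/-- Cost of the colour. -/
theorem H_QQ_le (hCOST : S_COST) (hp : IsLaw p) (D : Ω → Fin d → ℝ) (lev : Ω → Fin n → ℕ)
    (hn : 1 ≤ n) (hlev : ∀ w s, 2 ^ lev w s < 2 * n) :
    H p (QQ D lev) ≤ H p (fun z => lb (lev z.1) z.2) +
      ∑ z, p z * (d * (Real.log (n / 2 ^ lev z.1 z.2) + 2)) := by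
  refine hCOST (Ω × Fin n) (ℕ × ℕ) (Fin d → ℤ) p (fun z => lb (lev z.1) z.2)
    (fun z => col n D (lev z.1 z.2) z.1) (fun z => d * (Real.log (n / 2 ^ lev z.1 z.2) + 2)) hp ?_
  intro x hx
  refine ⟨Fintype.piFinset fun _ => (Finset.range (n / 2 ^ lev x.1 x.2 + 3)).image
    (fun k : ℕ => (k : ℤ)), ?_, ?_⟩
  · intro y hy hxy
    have e1 : lev y.1 y.2 = lev x.1 x.2 := congrArg Prod.fst hxy
    rw [Fintype.mem_piFinset]
    intro i
    rw [Finset.mem_image]
    simp only [col, e1]
    set m : ℤ := (((n / 2 ^ lev x.1 x.2 : ℕ) : ℤ) + 3) with hm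
    have hm0 : 0 < m := by positivity
    have g1 := Int.emod_nonneg ⌊(n : ℝ) * D y.1 i⌋ hm0.ne'
    have g2 := Int.emod_lt_of_pos ⌊(n : ℝ) * D y.1 i⌋ hm0
    refine ⟨(⌊(n : ℝ) * D y.1 i⌋ % m).toNat, ?_, ?_⟩
    · rw [Finset.mem_range]
      zify
      rw [Int.toNat_of_nonneg g1]
      push_cast at hm ⊢
      rw [← hm]
      exact g2
    · exact Int.toNat_of_nonneg g1
  · rw [Fintype.card_piFinset, Finset.prod_const, Finset.card_univ, Fintype.card_fin,
      Finset.card_image_of_injective _ (fun a b h => by exact_mod_cast h), Finset.card_range]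
    push_cast
    rw [Real.log_pow]
    refine mul_le_mul_of_nonneg_left ?_ (Nat.cast_nonneg _)
    have h2 : (0 : ℝ) < 2 ^ lev x.1 x.2 := by positivity
    have hn0 : (0 : ℝ) < n := by exact_mod_cast hn
    have hl : ((2 : ℝ) ^ lev x.1 x.2) < 2 * n := by exact_mod_cast hlev x.1 x.2
    have h3 : (((n / 2 ^ lev x.1 x.2 : ℕ) : ℝ) + 3) ≤ Real.exp 2 * (n / 2 ^ lev x.1 x.2) := by
      have g1 : ((n / 2 ^ lev x.1 x.2 : ℕ) : ℝ) ≤ (n : ℝ) / 2 ^ lev x.1 x.2 := by
        have := @Nat.cast_div_le ℝ _ _ _ n (2 ^ lev x.1 x.2)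
        push_cast at this
        exact this
      have g2 : (1 : ℝ) / 2 ≤ (n : ℝ) / 2 ^ lev x.1 x.2 := by
        rw [div_le_div_iff₀ two_pos h2]
        linarith
      have g3 : (7 : ℝ) ≤ Real.exp 2 := by
        have e1 := Real.exp_one_gt_d9
        have e2 : Real.exp 2 = Real.exp 1 * Real.exp 1 := by
          rw [← Real.exp_add]; norm_num
        rw [e2]
        nlinarith
      have g4 : (7 : ℝ) * (n / 2 ^ lev x.1 x.2) ≤ Real.exp 2 * (n / 2 ^ lev x.1 x.2) :=
        mul_le_mul_of_nonneg_right g3 (by positivity)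
      linarith
    have h4 : (0 : ℝ) < (n : ℝ) / 2 ^ lev x.1 x.2 := by positivity
    have h5 := Real.log_le_log (by positivity) h3
    rw [Real.log_mul (Real.exp_pos _).ne' h4.ne', Real.log_exp] at h5
    linarith

/-- Cost of the height. -/
theorem H_id_le (hCOST : S_COST) (hp : IsLaw p) (lev : Ω → Fin n → ℕ) :
    H p id ≤ H p (fun z => (z.1, lb (lev z.1) z.2)) +
      ∑ z, p z * Real.log ((2 : ℝ) ^ lev z.1 z.2) := by
  have h1 := hCOST (Ω × Fin n) (Ω × (ℕ × ℕ)) (Fin n) p (fun z => (z.1, lb (lev z.1) z.2))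
    (fun z => z.2) (fun z => Real.log ((2 : ℝ) ^ lev z.1 z.2)) hp ?_
  · refine le_trans (H_mono hp ?_) h1
    intro x y hx hy h
    have e1 : x.1 = y.1 := congrArg (fun u => u.1.1) h
    have e2 : x.2 = y.2 := congrArg (fun u => u.2) h
    exact Prod.ext e1 e2
  · intro x hx
    refine ⟨Finset.univ.filter fun s : Fin n => (s : ℕ) / 2 ^ lev x.1 x.2 =
      (x.2 : ℕ) / 2 ^ lev x.1 x.2, ?_, ?_⟩
    · intro y hy hxy
      have e1 : y.1 = x.1 := congrArg (fun u => u.1) hxy
      have e2 : lev y.1 y.2 = lev x.1 x.2 := congrArg (fun u => u.2.1) hxy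
      have e3 : (y.2 : ℕ) / 2 ^ lev y.1 y.2 = (x.2 : ℕ) / 2 ^ lev x.1 x.2 :=
        congrArg (fun u => u.2.2) hxy
      rw [Finset.mem_filter]
      refine ⟨Finset.mem_univ _, ?_⟩
      rw [e2] at e3
      exact e3
    · have hpos : 0 < 2 ^ lev x.1 x.2 := by positivity
      have hc : (Finset.univ.filter fun s : Fin n => (s : ℕ) / 2 ^ lev x.1 x.2 =
          (x.2 : ℕ) / 2 ^ lev x.1 x.2).card ≤ 2 ^ lev x.1 x.2 := by
        refine (Finset.card_le_card_of_injOn (t := Finset.range (2 ^ lev x.1 x.2))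
          (fun s : Fin n => (s : ℕ) % 2 ^ lev x.1 x.2) ?_ ?_).trans (Finset.card_range _).le
        · intro s _
          simp only [Finset.coe_range, Set.mem_Iio]
          exact Nat.mod_lt _ hpos
        · intro s hs t ht hst
          rw [Finset.mem_coe, Finset.mem_filter] at hs ht
          have h1 := Nat.div_add_mod (s : ℕ) (2 ^ lev x.1 x.2)
          have h2 := Nat.div_add_mod (t : ℕ) (2 ^ lev x.1 x.2)
          dsimp only at hst
          rw [hs.2, hst] at h1
          rw [ht.2] at h2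
          exact Fin.ext (h1.symm.trans h2)
      have hx1 : 0 < (Finset.univ.filter fun s : Fin n => (s : ℕ) / 2 ^ lev x.1 x.2 =
          (x.2 : ℕ) / 2 ^ lev x.1 x.2).card :=
        Finset.card_pos.2 ⟨x.2, by simp⟩
      refine Real.log_le_log (by exact_mod_cast hx1) ?_
      exact_mod_cast hc

end Main

theorem TOG (hTE : S_TE) (hLOC : S_LOC) (hHJ : S_HJ) (hCOST : S_COST) (hPSI : S_PSI) : S_TOG := by
  intro d b G ε h0 h1 hG hT
  have hε : 0 < 1 - ε := by linarith
  set g : ℝ := max G ((d + ε) / (1 - ε)) with hg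
  have hg1 : G ≤ g := le_max_left _ _
  have hg0 : 0 ≤ g := hG.trans hg1
  have hg2 : (d : ℝ) + ε ≤ g * (1 - ε) := by
    have := le_max_right G ((d + ε) / (1 - ε))
    rw [← hg, div_le_iff₀ hε] at this
    exact this
  by_cases hb : b < 0
  · by_cases hd : d = 0
    · subst hd
      refine ⟨0, le_rfl, ?_⟩
      intro n Ω _ A D hfam p hp
      have hsub : ∀ w w' : Ω, w = w' := fun w w' => hfam.inj w w' (fun i => i.elim0)
      have e1 : aa p = 0 := by
        unfold aa
        have := H_mono hp (f := fun _ => ()) (g := (Prod.fst : Ω × Fin n → Ω))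
          (fun x y _ _ _ => hsub _ _)
        rw [H_const hp ()] at this
        exact le_antisymm this (H_nonneg hp _)
      have e2 : hh A D p = 0 := by
        unfold hh
        rw [sub_eq_zero]
        refine H_congr hp ?_ ?_
        · intro x y _ _ h
          exact congrArg Prod.fst h
        · intro x y _ _ h
          exact Prod.ext h (funext fun i => i.elim0)
      have e3 := (hPSI Ω n p hfam.pos hp).1
      rw [e1, e2]
      have : 0 ≤ (1 + g) * lam p := mul_nonneg (by linarith) e3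
      linarith
    · exact absurd hT (fun h => neg_case hd hb hPSI h)
  have hb0 : 0 ≤ b := not_lt.1 hb
  obtain ⟨C0, hC0, hT⟩ := hT
  obtain ⟨B, hB, hlevs⟩ := exists_lev hTE h0 h1
  obtain ⟨CJ, hCJ, hJ⟩ := hHJ ε h0
  refine ⟨g * (B + 1) + CJ + 2 * d + C0 * (1 + B), by positivity, ?_⟩
  intro n Ω _ A D hfam p hp
  have hn0 : (0 : ℝ) < n := by exact_mod_cast hfam.pos
  obtain ⟨lev, hl1, hl2, hl3⟩ := hlevs n Ω hfam.pos p hp
  have hloc := hLOC d b G C0 hC0 hT n Ω A D hfam p hp lev B hB hl2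
  have hcol := H_QQ_le hCOST hp D lev hfam.pos hl1
  have hid := H_id_le hCOST hp lev
  have hJJ := hJ (Ω × Fin n) p (fun z => lev z.1 z.2) (Real.log (2 * n)) hp
  have hpos : ∀ z : Ω × Fin n, 0 ≤ Real.log (2 * n) - (lev z.1 z.2 : ℝ) * Real.log 2 := by
    intro z
    have hl : ((2 : ℝ) ^ lev z.1 z.2) ≤ 2 * n := by exact_mod_cast (hl1 z.1 z.2).le
    have := Real.log_le_log (by positivity) hl
    rw [Real.log_pow] at this
    linarith
  -- the sum `S = ∑ p J log 2`
  set S : ℝ := ∑ z, p z * ((lev z.1 z.2 : ℝ) * Real.log 2) with hS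
  have s1 : ∑ z, p z * Real.log ((2 : ℝ) ^ lev z.1 z.2) = S := by
    refine Finset.sum_congr rfl fun z _ => ?_
    rw [Real.log_pow]
  have s2 : ∑ z, p z * (d * (Real.log (n / 2 ^ lev z.1 z.2) + 2)) =
      d * (Real.log n + 2) - d * S := by
    have e : ∀ z : Ω × Fin n, p z * (d * (Real.log (n / 2 ^ lev z.1 z.2) + 2)) =
        p z * (d * (Real.log n + 2)) - d * (p z * ((lev z.1 z.2 : ℝ) * Real.log 2)) := by
      intro z
      rw [Real.log_div hn0.ne' (by positivity), Real.log_pow]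
      ring
    rw [Finset.sum_congr rfl fun z _ => e z, Finset.sum_sub_distrib, ← Finset.sum_mul, hp.total,
      one_mul, ← Finset.mul_sum]
  have s3 : ∑ z, p z * Real.log (2 * n / 2 ^ lev z.1 z.2) = Real.log (2 * n) - S := by
    have e : ∀ z : Ω × Fin n, p z * Real.log (2 * n / 2 ^ lev z.1 z.2) =
        p z * Real.log (2 * n) - p z * ((lev z.1 z.2 : ℝ) * Real.log 2) := by
      intro z
      rw [Real.log_div (by positivity) (by positivity), Real.log_pow]
      ring
    rw [Finset.sum_congr rfl fun z _ => e z, Finset.sum_sub_distrib, ← Finset.sum_mul, hp.total,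
      one_mul]
  have s4 : ∑ z, p z * |(lev z.1 z.2 : ℝ) * Real.log 2 - Real.log (2 * n)| =
      Real.log (2 * n) - S := by
    have e : ∀ z : Ω × Fin n, p z * |(lev z.1 z.2 : ℝ) * Real.log 2 - Real.log (2 * n)| =
        p z * Real.log (2 * n) - p z * ((lev z.1 z.2 : ℝ) * Real.log 2) := by
      intro z
      rw [abs_sub_comm, abs_of_nonneg (hpos z)]
      ring
    rw [Finset.sum_congr rfl fun z _ => e z, Finset.sum_sub_distrib, ← Finset.sum_mul, hp.total,
      one_mul]
  have s5 : 0 ≤ Real.log (2 * n) - S := by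
    rw [← s4]
    exact Finset.sum_nonneg fun z _ => mul_nonneg (hp.nonneg z) (abs_nonneg _)
  have s6 : Real.log (2 * n) = Real.log 2 + Real.log n := Real.log_mul two_ne_zero hn0.ne'
  have s7 : Real.log 2 ≤ 1 := by
    have := Real.log_two_lt_d9
    linarith
  have s8 : 0 ≤ Real.log 2 := Real.log_nonneg (by norm_num)
  rw [s1] at hid hloc
  rw [s2] at hcol
  rw [s3] at hl3
  rw [s4] at hJJ
  -- entropies
  have a1 : H p (fun z => (QQ D lev z, z.1, z.2)) = H p id := by
    refine H_congr hp ?_ ?_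
    · intro x y _ _ h
      exact congrArg Prod.snd h
    · intro x y _ _ h
      have h' : x = y := h
      rw [h']
  have a2 : H p (fun z => (QQ D lev z, z.1)) = H p (fun z => (z.1, lb (lev z.1) z.2)) := by
    refine H_congr hp ?_ ?_
    · intro x y _ _ h
      have e1 : x.1 = y.1 := congrArg (fun u => u.2) h
      have e2 : lb (lev x.1) x.2 = lb (lev y.1) y.2 := congrArg (fun u => u.1.1) h
      exact Prod.ext e1 e2
    · intro x y _ _ h
      have e1 : x.1 = y.1 := congrArg (fun u => u.1) h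
      have e2 : lb (lev x.1) x.2 = lb (lev y.1) y.2 := congrArg (fun u => u.2) h
      have e3 : lev x.1 x.2 = lev y.1 y.2 := congrArg Prod.fst e2
      refine Prod.ext (Prod.ext e2 ?_) e1
      show col n D (lev x.1 x.2) x.1 = col n D (lev y.1 y.2) y.1
      rw [e3, e1]
  have a3 : H p (fun z => (QQ D lev z, z.2, cell A D z.2 z.1)) + H p Prod.snd ≤
      H p (fun z => (QQ D lev z, z.2)) + H p (fun z => (z.2, cell A D z.2 z.1)) := by
    refine submod' hp (h := Prod.snd) ?_ ?_ ?_
    · intro x y _ _ h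
      exact congrArg (fun u => u.2) h
    · intro x y _ _ h
      exact congrArg (fun u => u.1) h
    · intro x y _ _ h
      have e1 : QQ D lev x = QQ D lev y := congrArg (fun u => u.1.1) h
      have e2 : x.2 = y.2 := congrArg (fun u => u.1.2) h
      have e3 : cell A D x.2 x.1 = cell A D y.2 y.1 := congrArg (fun u => u.2.2) h
      exact Prod.ext e1 (Prod.ext e2 e3)
  have a4 : H p id + H p (fun z => lb (lev z.1) z.2) ≤
      H p (fun z => (lev z.1 z.2, z.2)) + H p (fun z => (z.1, lb (lev z.1) z.2)) := by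
    refine submod' hp (h := fun z => lb (lev z.1) z.2) ?_ ?_ ?_
    · intro x y _ _ h
      have e1 : lev x.1 x.2 = lev y.1 y.2 := congrArg (fun u => u.1) h
      have e2 : x.2 = y.2 := congrArg (fun u => u.2) h
      show (lev x.1 x.2, (x.2 : ℕ) / 2 ^ lev x.1 x.2) = (lev y.1 y.2, (y.2 : ℕ) / 2 ^ lev y.1 y.2)
      rw [e1, e2]
    · intro x y _ _ h
      exact congrArg (fun u => u.2) h
    · intro x y _ _ h
      have e1 : x.1 = y.1 := congrArg (fun u => u.2.1) h
      have e2 : x.2 = y.2 := congrArg (fun u => u.1.2) h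
      exact Prod.ext e1 e2
  have a5 : H p (fun z => (lev z.1 z.2, z.2)) ≤ H p (fun z => lev z.1 z.2) + H p Prod.snd :=
    subadd hp (fun x y _ _ h => h)
  have a6 : H p (Prod.snd : Ω × Fin n → Fin n) ≤ Real.log n := by
    have := H_le_log_card hp (Prod.snd : Ω × Fin n → Fin n) Finset.univ
      (fun x _ => Finset.mem_univ _)
    simpa using this
  have a7 : b * (H p (fun z => (QQ D lev z, z.2, cell A D z.2 z.1)) -
      H p (fun z => (QQ D lev z, z.2))) ≤ b * hh A D p := by
    refine mul_le_mul_of_nonneg_left ?_ hb0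
    unfold hh
    linarith
  rw [a1, a2] at hloc
  unfold lam aa
  set E1 := H p id
  set E2 := H p (fun z => (z.1, lb (lev z.1) z.2))
  set E3 := H p (Prod.fst : Ω × Fin n → Ω)
  set Y : ℝ := Real.log (2 * n) - S with hY
  -- `G lam2 + (d + ε) Y ≤ g (lam2 + (1 - ε) Y)`
  have b1 : G * (S - (E1 - E2)) ≤ g * (S - (E1 - E2)) :=
    mul_le_mul_of_nonneg_right hg1 (by linarith)
  have b2 : (d + ε) * Y ≤ g * (1 - ε) * Y := mul_le_mul_of_nonneg_right hg2 s5
  have b3 : g * (S - (E1 - E2) + (1 - ε) * Y) ≤ g * ((Real.log n - (E1 - E3)) + B + 1) := by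
    refine mul_le_mul_of_nonneg_left ?_ hg0
    have : S = Real.log 2 + Real.log n - Y := by rw [hY, s6]; ring
    rw [this]
    linarith
  have b4 : d * (Real.log n + 2) - d * S ≤ d * Y + 2 * d := by
    have : (d : ℝ) * Y = d * (Real.log 2 + Real.log n) - d * S := by rw [hY, s6]; ring
    have h9 : (0 : ℝ) ≤ d * Real.log 2 := mul_nonneg (Nat.cast_nonneg _) s8
    linarith
  linarith

end Pool.Agent.W369.HM
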